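import Pool.Agent.MWS.StmtsA

/-!
# Block MWS, row DBL: an occurrence of a heavy letter may be repeated
-/

set_option autoImplicit false

namespace Pool.Agent.MWS.H7

open Pool.Agent.Helper14_MV Pool.Agent.Helper2_MV Pool.Agent.MVO

/-- one more copy -/
theorem step {β : FIC} (hI : Itr β) {k : ℕ} {B : ℕ → List ℕ} (hB : OkB k B) {i : ℕ} (hi : i ≤ k)
    {x : ℕ} {P Q : List ℕ} (hPQ : B i = P ++ x :: Q) (h2 : 2 ≤ (B i).count x) (n : ℕ) :
    RR β (asm k (Function.update B i (P ++ List.replicate (n + 1) x ++ Q)))
      (asm k (Function.update B i (P ++ List.replicate (n + 2) x ++ Q))) := by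
  -- the words
  obtain ⟨S, hS⟩ : ∃ S, S = pre B i := ⟨_, rfl⟩
  obtain ⟨T, hT⟩ : ∃ T, T = suf B i (k - i) := ⟨_, rfl⟩
  have hw : ∀ L, asm k (Function.update B i L) = S ++ L ++ T := by
    intro L
    rw [asm_update hi, hS, hT]
  have hw0 : asm k B = S ++ (P ++ x :: Q) ++ T := by
    rw [asm_split hi B, ← hS, ← hT, hPQ]
  have hcount : ∀ c ∈ B i, 2 ≤ (S ++ (P ++ List.replicate (n + 1) x ++ Q) ++ T).count c := by
    intro c hc
    have h3 : 2 ≤ (asm k B).count c := by
      rw [count_asm (hB.ok i hi c hc)]
      exact hB.ml i hi c hc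
    rw [hw0] at h3
    simp only [List.count_append, List.count_cons, List.replicate_succ] at h3 ⊢
    omega
  rw [hw, hw]
  by_cases hx : x ∈ P
  · obtain ⟨P1, P2, rfl⟩ := List.append_of_mem hx
    have h3 := hI (S ++ P1) P2 [] (List.replicate n x ++ Q ++ T) x (by
      intro c hc
      have hcB : c ∈ B i := by
        rw [hPQ]
        rcases hc with hc | hc
        · simp [hc]
        · simp at hc
      have h4 := hcount c hcB
      have e : S ++ P1 ++ x :: (P2 ++ ([] ++ x :: (List.replicate n x ++ Q ++ T)))
          = S ++ ((P1 ++ x :: P2) ++ List.replicate (n + 1) x ++ Q) ++ T := by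
        simp [List.replicate_succ]
      rw [e]
      exact h4)
    have e1 : S ++ P1 ++ x :: (P2 ++ ([] ++ x :: (List.replicate n x ++ Q ++ T)))
        = S ++ ((P1 ++ x :: P2) ++ List.replicate (n + 1) x ++ Q) ++ T := by
      simp [List.replicate_succ]
    have e2 : S ++ P1 ++ x :: (P2 ++ x :: ([] ++ x :: (List.replicate n x ++ Q ++ T)))
        = S ++ ((P1 ++ x :: P2) ++ List.replicate (n + 2) x ++ Q) ++ T := by
      simp [List.replicate_succ]
    rw [e1, e2] at h3
    exact h3
  · have hxQ : x ∈ Q := by
      have h5 : (P ++ x :: Q).count x = Q.count x + 1 := by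
        rw [List.count_append, List.count_eq_zero_of_not_mem hx, List.count_cons_self, Nat.zero_add]
      rw [hPQ, h5] at h2
      apply List.count_pos_iff.1
      omega
    obtain ⟨Q1, Q2, rfl⟩ := List.append_of_mem hxQ
    have e1 : S ++ P ++ x :: ([] ++ ((List.replicate n x ++ Q1) ++ x :: (Q2 ++ T)))
        = S ++ (P ++ List.replicate (n + 1) x ++ (Q1 ++ x :: Q2)) ++ T := by
      simp [List.replicate_succ]
    have e2 : S ++ P ++ x :: ([] ++ x :: ((List.replicate n x ++ Q1) ++ x :: (Q2 ++ T)))
        = S ++ (P ++ List.replicate (n + 2) x ++ (Q1 ++ x :: Q2)) ++ T := by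
      simp [List.replicate_succ]
    have h3 := hI (S ++ P) [] (List.replicate n x ++ Q1) (Q2 ++ T) x (by
      intro c hc
      have hcB : c ∈ B i := by
        rw [hPQ]
        rcases hc with hc | hc
        · simp at hc
        · rcases List.mem_append.1 hc with hc | hc
          · rw [List.eq_of_mem_replicate hc]
            simp
          · simp [hc]
      rw [e1]
      exact hcount c hcB)
    rw [e1, e2] at h3
    exact h3

/-- **DBL**. -/
theorem dbl : DblStmt := by
  intro β hI k B hB i hi x P Q hPQ h2 n hn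
  induction n, hn using Nat.le_induction with
  | base =>
    have e : asm k (Function.update B i (P ++ List.replicate 1 x ++ Q)) = asm k B := by
      apply asm_congr
      intro j _
      by_cases hj : j = i
      · subst hj
        rw [Function.update_self, hPQ]
        simp
      · rw [Function.update_of_ne hj]
    rw [e]
    exact β.refl _
  | succ n hn ih =>
    obtain ⟨m, rfl⟩ : ∃ m, n = m + 1 := ⟨n - 1, by omega⟩
    exact β.trans ih (step hI hB hi hPQ h2 m)

end Pool.Agent.MWS.H7
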